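import Pool.Agent.TH867.QF.Rg
import Pool.Agent.TH867.SQ.Line
import Pool.Agent.TH867.SB.LbA

/-! Rational points of the projective line of all heights with small truncated counting function,
relative to the divisor and to one of its points. -/

set_option autoImplicit false

namespace Pool.Agent.Results.MP_9ec3f0_nt.ComponentAllHeights

open Finset

/-- Normalised coprime integer coordinates: each point `[x₀ : x₁]` of the projective line over `ℚ`
has exactly one such pair. -/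
def Nrm (x : ℤ × ℤ) : Prop := IsCoprime x.1 x.2 ∧ (0 < x.2 ∨ x.2 = 0 ∧ 0 < x.1)

/-- the linear form `x₀ a₁ - x₁ a₀` that vanishes at the point `[a₀ : a₁]` -/
def form (a x : ℤ × ℤ) : ℤ := x.1 * a.2 - x.2 * a.1

/-- The truncated counting function `N_S^{(1)}(D, x)` of the divisor `D = ∑ [α_i]`: the sum of
`log p` over the primes `p ∉ S` dividing one of the `form (α i) x`. -/
noncomputable def N1 {q : ℕ} (α : Fin q → ℤ × ℤ) (S : Finset ℕ) (x : ℤ × ℤ) : ℝ :=
  ∑ p ∈ (∏ i, form (α i) x).natAbs.primeFactors \ S, Real.log p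

/-- The truncated counting function `N_S^{(1)}([a], x)` of the single point `a`. -/
noncomputable def N1s (a : ℤ × ℤ) (S : Finset ℕ) (x : ℤ × ℤ) : ℝ :=
  ∑ p ∈ (form a x).natAbs.primeFactors \ S, Real.log p

/-- The points `x` of the projective line over `ℚ`, different from all the `α_i`, with
`N_S^{(1)}(D, x) ≤ log X` and `N_S^{(1)}([α_i], x) ≤ log A` for some `i`; there is no condition on
the height of `x`. -/
def Pts {q : ℕ} (α : Fin q → ℤ × ℤ) (S : Finset ℕ) (X A : ℝ) : Set (ℤ × ℤ) :=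
  {x | Nrm x ∧ (∀ i, form (α i) x ≠ 0) ∧ N1 α S x ≤ Real.log X ∧
    ∃ i, N1s (α i) S x ≤ Real.log A}

/-- the linear forms -/
def FL {q : ℕ} (α : Fin q → ℤ × ℤ)
    (hα : ∀ i j, i ≠ j → (α i).1 * (α j).2 ≠ (α j).1 * (α i).2) : Pool.Agent.TH867.QF.Fm q where
  u i := (α i).2
  w i := - (α i).1
  res i j hij h0 := hα i j hij (by linarith)

open Pool.Agent.TH867.QF in
theorem ev_eq {q : ℕ} (α : Fin q → ℤ × ℤ)
    (hα : ∀ i j, i ≠ j → (α i).1 * (α j).2 ≠ (α j).1 * (α i).2) (x : ℤ × ℤ) (i : Fin q) :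
    ev (FL α hα) x i = form (α i) x := by
  unfold ev FL form
  ring

open Pool.Agent.TH867.QF in
theorem va_eq {q : ℕ} (α : Fin q → ℤ × ℤ)
    (hα : ∀ i j, i ≠ j → (α i).1 * (α j).2 ≠ (α j).1 * (α i).2) (x : ℤ × ℤ) (i : Fin q) :
    va (FL α hα) x i = (form (α i) x).natAbs := by
  unfold va
  rw [ev_eq]

open Pool.Agent.TH867.QF in
theorem Np_eq {q : ℕ} (α : Fin q → ℤ × ℤ)
    (hα : ∀ i j, i ≠ j → (α i).1 * (α j).2 ≠ (α j).1 * (α i).2) (x : ℤ × ℤ) :
    Np (FL α hα) x = (∏ i, form (α i) x).natAbs := by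
  unfold Np
  rw [← Int.natAbsHom_apply, map_prod]
  exact Finset.prod_congr rfl fun i _ => va_eq α hα x i

open Pool.Agent.TH867.QF in
theorem Sd_sub {d : ℕ} (α : Fin (d + 3) → ℤ × ℤ)
    (hα : ∀ i j, i ≠ j → (α i).1 * (α j).2 ≠ (α j).1 * (α i).2) {x : ℤ × ℤ}
    (hx : Pt (FL α hα) x) (i : Fin (d + 3)) :
    Sd (FL α hα) x i ⊆ (form (α i) x).natAbs.primeFactors := by
  intro q hq
  have hqp := prime_Sd hq
  have h2 := vv_pos hx hq
  have h3 : 1 ≤ fv (FL α hα) x i q := by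
    have := ty_Sd hq
    unfold vv at h2
    rwa [this] at h2
  have h4 : q ∣ va (FL α hα) x i := by
    by_contra hd
    have : fv (FL α hα) x i q = 0 := Nat.factorization_eq_zero_of_not_dvd hd
    omega
  rw [va_eq] at h4
  exact Nat.mem_primeFactors.2 ⟨hqp, h4, by rw [← va_eq α hα]; exact (va_pos hx i).ne'⟩

theorem sdiff_le (f : ℕ → ℝ) (hf : ∀ n, 0 ≤ f n) (A S : Finset ℕ) :
    ∑ p ∈ A, f p ≤ ∑ p ∈ A \ S, f p + ∑ p ∈ S, f p := by
  classical
  rw [← Finset.sum_sdiff (Finset.inter_subset_left : A ∩ S ⊆ A)]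
  have e : A \ (A ∩ S) = A \ S := by
    ext p; simp only [Finset.mem_sdiff, Finset.mem_inter]; tauto
  rw [e]
  have := Finset.sum_le_sum_of_subset_of_nonneg (f := f) (Finset.inter_subset_right : A ∩ S ⊆ S)
    fun p _ _ => hf p
  linarith

open Pool.Agent.TH867.QF in
/-- the sum of the counting functions of the points -/
theorem sum_N1s {d : ℕ} (α : Fin (d + 3) → ℤ × ℤ)
    (hα : ∀ i j, i ≠ j → (α i).1 * (α j).2 ≠ (α j).1 * (α i).2) (S : Finset ℕ) {x : ℤ × ℤ}
    (hx : Pt (FL α hα) x) : ∑ i, N1s (α i) S x ≤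
      N1 α S x + ((d : ℝ) + 3) * Real.log (Rs (FL α hα)) := by
  classical
  have hf : ∀ q : ℕ, 0 ≤ Real.log (q : ℝ) := fun q => Real.log_natCast_nonneg q
  obtain ⟨L, hL⟩ : ∃ L, L = FL α hα := ⟨_, rfl⟩
  rw [← hL] at hx ⊢
  have hR := Rs_pos L
  have h1 : ∀ i, N1s (α i) S x ≤ ∑ p ∈ Sd L x i \ S, Real.log (p : ℝ) + Real.log (Rs L) := by
    intro i
    have hsub : (form (α i) x).natAbs.primeFactors \ S ⊆ (Sd L x i \ S) ∪ (Rs L).primeFactors := by
      intro p hp
      obtain ⟨h2, h3⟩ := Finset.mem_sdiff.1 hp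
      rw [← va_eq α hα, ← hL] at h2
      rcases Finset.mem_union.1 (pf_sub hx i h2) with h4 | h4
      · exact Finset.mem_union_left _ (Finset.mem_sdiff.2 ⟨h4, h3⟩)
      · exact Finset.mem_union_right _ h4
    have h5 : N1s (α i) S x ≤ ∑ p ∈ (Sd L x i \ S) ∪ (Rs L).primeFactors, Real.log (p : ℝ) :=
      Finset.sum_le_sum_of_subset_of_nonneg hsub fun p _ _ => hf p
    have h6 : ∑ p ∈ (Sd L x i \ S) ∪ (Rs L).primeFactors, Real.log (p : ℝ) ≤
        ∑ p ∈ Sd L x i \ S, Real.log (p : ℝ) + ∑ p ∈ (Rs L).primeFactors, Real.log (p : ℝ) := by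
      rw [← Finset.sum_union_inter]
      have : 0 ≤ ∑ p ∈ (Sd L x i \ S) ∩ (Rs L).primeFactors, Real.log (p : ℝ) :=
        Finset.sum_nonneg fun p _ => hf p
      linarith
    have h7 : ∑ p ∈ (Rs L).primeFactors, Real.log (p : ℝ) ≤ Real.log (Rs L) := by
      rw [Pool.Agent.TH867.SR.log_eq_sum' hR.ne']
      refine Finset.sum_le_sum fun q hq => ?_
      obtain ⟨q1, q2, _⟩ := Nat.mem_primeFactors.1 hq
      have : 1 ≤ (Rs L).factorization q := q1.factorization_pos_of_dvd hR.ne' q2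
      have h1 : (1 : ℝ) ≤ (Rs L).factorization q := by exact_mod_cast this
      nlinarith [hf q]
    linarith
  refine (Finset.sum_le_sum fun i _ => h1 i).trans ?_
  rw [Finset.sum_add_distrib, Finset.sum_const, Finset.card_univ, Fintype.card_fin, nsmul_eq_mul]
  have h8 : ∑ i, ∑ p ∈ Sd L x i \ S, Real.log (p : ℝ) = N1 α S x := by
    have e : ∀ i, ∑ p ∈ Sd L x i \ S, Real.log (p : ℝ) =
        ∑ p ∈ ((Np L x).primeFactors \ S).filter (fun q => ty L x q = i), Real.log (p : ℝ) := by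
      intro i
      congr 1
      ext p
      simp only [Sd, Finset.mem_sdiff, Finset.mem_filter]
      tauto
    rw [Finset.sum_congr rfl fun i _ => e i]
    rw [Finset.sum_fiberwise ((Np L x).primeFactors \ S) (fun q => ty L x q)
      (fun p : ℕ => Real.log (p : ℝ))]
    unfold N1
    rw [hL, Np_eq]
  rw [h8]
  push_cast
  linarith

open Pool.Agent.TH867.QF Pool.Agent.TH867.SQ in
theorem upper (q : ℕ) (hq : 3 ≤ q) (α : Fin q → ℤ × ℤ)
    (hα : ∀ i j, i ≠ j → (α i).1 * (α j).2 ≠ (α j).1 * (α i).2) (S : Finset ℕ) (ε : ℝ)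
    (hε : 0 < ε) : ∃ C : ℝ, 0 < C ∧ ∀ X A : ℝ, 1 ≤ X → 1 ≤ A → (Pts α S X A).Finite ∧
      ((Pts α S X A).ncard : ℝ) ≤
        C * X ^ ε * (X * A ^ ((q : ℝ) - 2)) ^ (1 / ((q : ℝ) - 1)) := by
  classical
  obtain ⟨d, rfl⟩ : ∃ d, q = d + 3 := ⟨q - 3, by omega⟩
  have hf : ∀ n : ℕ, 0 ≤ Real.log (n : ℝ) := fun n => Real.log_natCast_nonneg n
  obtain ⟨D, hD, hmain⟩ := line_upper (FL α hα) ε hε
  obtain ⟨σ, hσ⟩ : ∃ σ, σ = ∑ p ∈ S, Real.log (p : ℝ) := ⟨_, rfl⟩
  have hσ0 : 0 ≤ σ := by rw [hσ]; exact Finset.sum_nonneg fun p _ => hf p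
  obtain ⟨c, hc⟩ : ∃ c : ℝ, c = ((d : ℝ) + 3) * Real.log (Rs (FL α hα)) + ((d : ℝ) + 3) * σ :=
    ⟨_, rfl⟩
  have hR0 : 0 ≤ Real.log (Rs (FL α hα)) := Real.log_natCast_nonneg _
  have hc0 : 0 ≤ c := by rw [hc]; positivity
  have hd2 : (0 : ℝ) < (d : ℝ) + 2 := by positivity
  have e1 : (((d + 3 : ℕ) : ℝ)) - 2 = (d : ℝ) + 1 := by push_cast; ring
  have e2 : (((d + 3 : ℕ) : ℝ)) - 1 = (d : ℝ) + 2 := by push_cast; ring
  rw [e1, e2]
  obtain ⟨K, hK⟩ : ∃ K : ℝ, K = Real.exp c ^ ε *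
      (Real.exp c * Real.exp σ ^ ((d : ℝ) + 1)) ^ (1 / ((d : ℝ) + 2)) := ⟨_, rfl⟩
  have hK0 : 0 < K := by rw [hK]; positivity
  refine ⟨D * K, by positivity, fun X A hX hA => ?_⟩
  have hX0 : 0 < X := by linarith
  have hA0 : 0 < A := by linarith
  have hec : 1 ≤ Real.exp c := Real.one_le_exp hc0
  have heσ : 1 ≤ Real.exp σ := Real.one_le_exp hσ0
  obtain ⟨B, hB⟩ : ∃ B : ℝ, B = D * K * X ^ ε * (X * A ^ ((d : ℝ) + 1)) ^ (1 / ((d : ℝ) + 2)) :=
    ⟨_, rfl⟩
  rw [← hB]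
  have key : ∀ F : Finset (ℤ × ℤ), (F : Set (ℤ × ℤ)) ⊆ Pts α S X A → (F.card : ℝ) ≤ B := by
    intro F hF
    have h1 := hmain (X * Real.exp c) (A * Real.exp σ) (by nlinarith) (by nlinarith) F
      (fun t ht => by
      obtain ⟨⟨g1, g2⟩, g3, g5, i, g6⟩ := hF (Finset.mem_coe.2 ht)
      have hpt : Pt (FL α hα) t := ⟨g1, fun i => by rw [ev_eq]; exact g3 i⟩
      have h3 : ∀ i, lr (va (FL α hα) t i) ≤ N1s (α i) S t + σ := by
        intro i
        have h2 := sdiff_le (fun p : ℕ => Real.log (p : ℝ)) hf (form (α i) t).natAbs.primeFactors S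
        rw [← hσ] at h2
        rw [va_eq]
        exact h2
      refine ⟨hpt, ?_, i, ?_⟩
      · have h2 := sum_N1s α hα S hpt
        have h4 := Finset.sum_le_sum fun i (_ : i ∈ Finset.univ) => h3 i
        rw [Finset.sum_add_distrib, Finset.sum_const, Finset.card_univ, Fintype.card_fin,
          nsmul_eq_mul] at h4
        push_cast at h4
        rw [Real.log_mul hX0.ne' (Real.exp_pos _).ne', Real.log_exp, hc]
        linarith
      · rw [Real.log_mul hA0.ne' (Real.exp_pos _).ne', Real.log_exp]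
        have := h3 i
        linarith)
    refine h1.trans (le_of_eq ?_)
    have e3 : (X * Real.exp c) ^ ε = X ^ ε * Real.exp c ^ ε :=
      Real.mul_rpow hX0.le (Real.exp_pos _).le
    have e4 : (X * Real.exp c * (A * Real.exp σ) ^ ((d : ℝ) + 1)) ^ (1 / ((d : ℝ) + 2)) =
        (X * A ^ ((d : ℝ) + 1)) ^ (1 / ((d : ℝ) + 2)) *
          (Real.exp c * Real.exp σ ^ ((d : ℝ) + 1)) ^ (1 / ((d : ℝ) + 2)) := by
      rw [← Real.mul_rpow (by positivity) (by positivity), Real.mul_rpow hA0.le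
        (Real.exp_pos _).le]
      congr 1
      ring
    rw [e3, e4, hB, hK]
    ring
  have hfin : (Pts α S X A).Finite := by
    by_contra hinf
    obtain ⟨F, hF, hFc⟩ := Set.Infinite.exists_subset_card_eq hinf (⌊B⌋₊ + 1)
    have h1 := key F hF
    rw [hFc] at h1
    have h2 := Nat.lt_floor_add_one B
    push_cast at h1 h2
    linarith
  refine ⟨hfin, ?_⟩
  have h1 := key hfin.toFinset (by simp)
  rwa [← Set.ncard_eq_toFinset_card _ hfin] at h1

theorem lr_le_log {n : ℕ} (hn : 0 < n) (S : Finset ℕ) :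
    ∑ p ∈ n.primeFactors \ S, Real.log (p : ℝ) ≤ Real.log n := by
  classical
  have h1 : ∑ p ∈ n.primeFactors \ S, Real.log (p : ℝ) ≤ ∑ p ∈ n.primeFactors, Real.log (p : ℝ) :=
    Finset.sum_le_sum_of_subset_of_nonneg Finset.sdiff_subset fun p _ _ =>
      Real.log_natCast_nonneg p
  exact h1.trans (Pool.Agent.TH867.SQ.lr_le_log hn.ne')

open Pool.Agent.TH867.QF in
theorem lower (q : ℕ) (hq : 3 ≤ q) (α : Fin q → ℤ × ℤ) (hcop : ∀ i, IsCoprime (α i).1 (α i).2)
    (hα : ∀ i j, i ≠ j → (α i).1 * (α j).2 ≠ (α j).1 * (α i).2) (S : Finset ℕ) :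
    ∃ c : ℝ, 0 < c ∧ ∃ X₀ : ℝ, ∀ X A : ℝ, X₀ ≤ X → 1 ≤ A → A ^ q ≤ X →
      c * (X * A ^ ((q : ℝ) - 2)) ^ (1 / ((q : ℝ) - 1)) ≤ ((Pts α S X A).ncard : ℝ) := by
  classical
  have hqR : (3 : ℝ) ≤ q := by exact_mod_cast hq
  have hq1 : (0 : ℝ) < (q : ℝ) - 1 := by linarith
  obtain ⟨i0, hi0⟩ : ∃ i0 : Fin q, i0 = ⟨0, by omega⟩ := ⟨_, rfl⟩
  obtain ⟨s', t', hst'⟩ := hcop i0
  obtain ⟨s, hs⟩ : ∃ s : ℤ, s = t' := ⟨_, rfl⟩
  obtain ⟨t, ht⟩ : ∃ t : ℤ, t = -s' := ⟨_, rfl⟩
  have hst : s * (α i0).2 - t * (α i0).1 = 1 := by rw [hs, ht]; linear_combination hst'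
  obtain ⟨φ, hφ⟩ : ∃ φ : ℕ × ℕ → ℤ × ℤ, φ = fun p =>
      ((p.1 : ℤ) * (α i0).1 + (p.2 : ℤ) * s, (p.1 : ℤ) * (α i0).2 + (p.2 : ℤ) * t) := ⟨_, rfl⟩
  have hφ2 : ∀ p, form (α i0) (φ p) = p.2 := by
    intro p
    rw [hφ]
    simp only [form]
    linear_combination (p.2 : ℤ) * hst
  have hφ1 : ∀ p, s * (φ p).2 - t * (φ p).1 = p.1 := by
    intro p
    rw [hφ]
    simp only
    linear_combination (p.1 : ℤ) * hst
  have hφinj : Function.Injective φ := by
    intro p p' hp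
    have h1 := hφ1 p
    have h2 := hφ2 p
    rw [hp] at h1 h2
    rw [hφ1 p'] at h1
    rw [hφ2 p'] at h2
    exact Prod.ext (by exact_mod_cast h1.symm) (by exact_mod_cast h2.symm)
  have hφcop : ∀ p : ℕ × ℕ, Nat.Coprime p.1 p.2 → IsCoprime (φ p).1 (φ p).2 := by
    intro p hp
    obtain ⟨u, v, huv⟩ := Nat.isCoprime_iff_coprime.2 hp
    have h1 := hφ1 p
    have h2 := hφ2 p
    unfold form at h2
    refine ⟨v * (α i0).2 - u * t, u * s - v * (α i0).1, ?_⟩
    linear_combination huv + u * h1 + v * h2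
  -- the constant
  obtain ⟨c1, hc1⟩ : ∃ c1 : ℕ, c1 = 1 + ∑ j : Fin q,
      (((α i0).1 * (α j).2 - (α i0).2 * (α j).1).natAbs + (s * (α j).2 - t * (α j).1).natAbs) :=
    ⟨_, rfl⟩
  have hc11 : 1 ≤ c1 := by omega
  have hc1R : (1 : ℝ) ≤ c1 := by exact_mod_cast hc11
  have hform : ∀ p : ℕ × ℕ, ∀ j, (form (α j) (φ p)).natAbs ≤ c1 * max p.1 p.2 := by
    intro p j
    have h1 : form (α j) (φ p) = (p.1 : ℤ) * ((α i0).1 * (α j).2 - (α i0).2 * (α j).1) +
        (p.2 : ℤ) * (s * (α j).2 - t * (α j).1) := by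
      rw [hφ]
      simp only [form]
      ring
    have h2 := Finset.single_le_sum (f := fun j : Fin q =>
      (((α i0).1 * (α j).2 - (α i0).2 * (α j).1).natAbs + (s * (α j).2 - t * (α j).1).natAbs))
      (fun _ _ => Nat.zero_le _) (Finset.mem_univ j)
    rw [h1]
    refine (Int.natAbs_add_le _ _).trans ?_
    rw [Int.natAbs_mul, Int.natAbs_mul, Int.natAbs_natCast, Int.natAbs_natCast]
    have h3 : p.1 ≤ max p.1 p.2 := le_max_left _ _
    have h4 : p.2 ≤ max p.1 p.2 := le_max_right _ _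
    calc p.1 * ((α i0).1 * (α j).2 - (α i0).2 * (α j).1).natAbs +
          p.2 * (s * (α j).2 - t * (α j).1).natAbs ≤
        max p.1 p.2 * ((α i0).1 * (α j).2 - (α i0).2 * (α j).1).natAbs +
          max p.1 p.2 * (s * (α j).2 - t * (α j).1).natAbs :=
          Nat.add_le_add (Nat.mul_le_mul_right _ h3) (Nat.mul_le_mul_right _ h4)
      _ = max p.1 p.2 * (((α i0).1 * (α j).2 - (α i0).2 * (α j).1).natAbs +
          (s * (α j).2 - t * (α j).1).natAbs) := by ring
      _ ≤ max p.1 p.2 * c1 := Nat.mul_le_mul_left _ (by omega)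
      _ = _ := by ring
  refine ⟨1 / (64 * c1 ^ 2), by positivity,
    max 1 (((64 * q * c1 + 4 * c1 : ℕ) : ℝ) ^ (2 * (q : ℝ))), fun X A hX hA hAX => ?_⟩
  have hX1 : 1 ≤ X := (le_max_left _ _).trans hX
  have hX0 : 0 < X := by linarith
  have hA0 : 0 < A := by linarith
  have hfinS : (Pts α S X A).Finite := by
    obtain ⟨C, -, hC⟩ := upper q hq α hα S 1 one_pos
    exact (hC X A hX1 hA).1
  obtain ⟨Y, hY⟩ : ∃ Y : ℝ, Y = (X / A) ^ (1 / ((q : ℝ) - 1)) := ⟨_, rfl⟩
  have hXA : 0 < X / A := by positivity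
  have hY0 : 0 < Y := by rw [hY]; positivity
  have hYq : Y ^ ((q : ℝ) - 1) = X / A := by
    rw [hY, ← Real.rpow_mul hXA.le, one_div_mul_cancel hq1.ne', Real.rpow_one]
  have hAY : A ≤ Y := by
    rw [hY, ← Real.log_le_log_iff hA0 (by positivity), Real.log_rpow hXA, Real.log_div hX0.ne' hA0.ne']
    have h1 := Real.log_le_log (by positivity) hAX
    rw [Real.log_pow] at h1
    rw [one_div, ← div_eq_inv_mul, le_div_iff₀ hq1]
    linarith
  have hYbig : ((64 * q * c1 + 4 * c1 : ℕ) : ℝ) ≤ Y := by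
    have h1 : ((64 * q * c1 + 4 * c1 : ℕ) : ℝ) ^ (2 * (q : ℝ)) ≤ X := (le_max_right _ _).trans hX
    have hk : (1 : ℝ) ≤ ((64 * q * c1 + 4 * c1 : ℕ) : ℝ) := by
      have : 1 ≤ 64 * q * c1 + 4 * c1 := by omega
      exact_mod_cast this
    obtain ⟨κ, hκ⟩ : ∃ κ : ℝ, κ = ((64 * q * c1 + 4 * c1 : ℕ) : ℝ) := ⟨_, rfl⟩
    rw [← hκ] at h1 hk ⊢
    have hκ0 : 0 < κ := by linarith
    have h2 := Real.log_le_log (by positivity) h1
    rw [Real.log_rpow hκ0] at h2
    have h3 := Real.log_le_log (by positivity) hAX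
    rw [Real.log_pow] at h3
    have hlA : 0 ≤ Real.log A := Real.log_nonneg hA
    have hlκ : 0 ≤ Real.log κ := Real.log_nonneg hk
    rw [hY, ← Real.log_le_log_iff hκ0 (by positivity), Real.log_rpow hXA,
      Real.log_div hX0.ne' hA0.ne', one_div, ← div_eq_inv_mul, le_div_iff₀ hq1]
    have h4 : Real.log A ≤ Real.log X / 3 := by
      have : (3 : ℝ) * Real.log A ≤ q * Real.log A := mul_le_mul_of_nonneg_right hqR hlA
      linarith
    have hlX : 0 ≤ Real.log X := Real.log_nonneg hX1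
    nlinarith
  obtain ⟨T, hT⟩ : ∃ T : ℝ, T = Y / c1 := ⟨_, rfl⟩
  have hc1R0 : (0 : ℝ) < c1 := by linarith
  have hT4 : 64 * q + 4 ≤ T := by
    rw [hT, le_div_iff₀ hc1R0]
    push_cast at hYbig
    linarith
  have hTY : c1 * T = Y := by rw [hT, mul_div_cancel₀ _ hc1R0.ne']
  obtain ⟨M, hM⟩ : ∃ M : ℕ, M = ⌊T⌋₊ := ⟨_, rfl⟩
  obtain ⟨N, hN⟩ : ∃ N : ℕ, N = ⌊min A T⌋₊ := ⟨_, rfl⟩
  have hT0 : 0 ≤ T := by linarith
  have hMT : (M : ℝ) ≤ T := by rw [hM]; exact Nat.floor_le hT0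
  have hM2 : T / 2 ≤ M := by
    have : T - 1 < M := by rw [hM]; exact Nat.sub_one_lt_floor _
    linarith
  have hmin1 : 1 ≤ min A T := le_min hA (by linarith)
  have hNmin : (N : ℝ) ≤ min A T := by rw [hN]; exact Nat.floor_le (by linarith)
  have hN2 : min A T / 2 ≤ N := by
    have h1 : min A T - 1 < N := by rw [hN]; exact Nat.sub_one_lt_floor _
    have h2 : 1 ≤ N := by rw [hN]; exact Nat.le_floor (by simpa using hmin1)
    have h3 : (1 : ℝ) ≤ N := by exact_mod_cast h2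
    rcases le_or_gt (min A T) 2 with h | h
    · linarith
    · linarith
  have hN1 : (1 : ℝ) / 2 ≤ N := by linarith
  have hNA : A / (2 * c1) ≤ N := by
    refine le_trans ?_ hN2
    rw [← div_div]
    rw [div_div, div_le_div_iff₀ (by positivity) (by norm_num)]
    have : A ≤ min A T * c1 := by
      rcases min_choice A T with h | h
      · rw [h]; nlinarith
      · rw [h, mul_comm, hTY]; exact hAY
    linarith
  -- the pairs
  obtain ⟨G, hG⟩ : ∃ G, G = Pool.Agent.TH867.SB.Lb.rect M N := ⟨_, rfl⟩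
  have hmemG : ∀ p ∈ G, 0 < p.1 ∧ p.1 ≤ M ∧ 0 < p.2 ∧ p.2 ≤ N ∧ Nat.Coprime p.1 p.2 := by
    intro p hp
    rw [hG] at hp
    obtain ⟨h1, h3⟩ := Finset.mem_filter.1 hp
    rw [Finset.mem_product, Finset.mem_Ioc, Finset.mem_Ioc] at h1
    exact ⟨h1.1.1, h1.1.2, h1.2.1, h1.2.2, h3⟩
  obtain ⟨Bd, hBd⟩ : ∃ Bd : Fin q → Finset (ℕ × ℕ), Bd = fun i =>
    G.filter fun p => form (α i) (φ p) = 0 := ⟨_, rfl⟩
  have hBcard : ∀ i, (Bd i).card ≤ 1 := by
    intro i
    rw [Finset.card_le_one]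
    intro p hp p' hp'
    rw [hBd] at hp hp'
    obtain ⟨a1, a2⟩ := Finset.mem_filter.1 hp
    obtain ⟨b1, b2⟩ := Finset.mem_filter.1 hp'
    obtain ⟨a3, -, a4, -, a5⟩ := hmemG p a1
    obtain ⟨b3, -, b4, -, b5⟩ := hmemG p' b1
    have hd : dt (φ p) (φ p') = 0 := by
      unfold form at a2 b2
      have h1 : (α i).2 * dt (φ p) (φ p') = 0 := by
        simp only [dt]
        linear_combination ((φ p').2) * a2 - ((φ p).2) * b2
      have h2 : (α i).1 * dt (φ p) (φ p') = 0 := by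
        simp only [dt]
        linear_combination ((φ p').1) * a2 - ((φ p).1) * b2
      obtain ⟨u, v, huv⟩ := hcop i
      have e : dt (φ p) (φ p') = u * ((α i).1 * dt (φ p) (φ p')) +
          v * ((α i).2 * dt (φ p) (φ p')) := by
        linear_combination (-(dt (φ p) (φ p'))) * huv
      rw [e, h1, h2, mul_zero, mul_zero, add_zero]
    obtain ⟨c, hc, e1, e2⟩ := proportional (hφcop p a5) (hφcop p' b5) hd
    have e3 : (p'.2 : ℤ) = c * p.2 := by
      rw [← hφ2 p', ← hφ2 p]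
      unfold form
      rw [e1, e2]
      ring
    rcases hc with rfl | rfl
    · apply hφinj
      exact Prod.ext (by rw [e1, one_mul]) (by rw [e2, one_mul])
    · exfalso
      have : (0 : ℤ) < p'.2 := by exact_mod_cast b4
      have : (0 : ℤ) < p.2 := by exact_mod_cast a4
      linarith
  obtain ⟨G', hG'⟩ : ∃ G', G' = G.filter fun p => ∀ i, form (α i) (φ p) ≠ 0 := ⟨_, rfl⟩
  have hcov : G ⊆ G' ∪ (Finset.univ : Finset (Fin q)).biUnion Bd := by
    intro p hp
    rw [Finset.mem_union, hG', hBd]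
    by_cases h0 : ∀ i, form (α i) (φ p) ≠ 0
    · exact Or.inl (Finset.mem_filter.2 ⟨hp, h0⟩)
    · push Not at h0
      obtain ⟨i, hi⟩ := h0
      exact Or.inr (Finset.mem_biUnion.2 ⟨i, Finset.mem_univ _, Finset.mem_filter.2 ⟨hp, hi⟩⟩)
  have hcard1 : (G.card : ℝ) ≤ (G'.card : ℝ) + q := by
    have h1 : G.card ≤ G'.card + q := by
      refine (Finset.card_le_card hcov).trans ((Finset.card_union_le _ _).trans ?_)
      refine Nat.add_le_add_left ?_ _
      refine (Finset.card_biUnion_le_card_mul _ _ 1 fun i _ => hBcard i).trans (le_of_eq ?_)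
      rw [Finset.card_univ, Fintype.card_fin, Nat.mul_one]
    exact_mod_cast h1
  have hcard2 : (M : ℝ) * N / 4 ≤ (G.card : ℝ) := by
    rw [hG]; exact Pool.Agent.TH867.SB.Lb.rect_count M N
  -- normalisation
  obtain ⟨ν, hν⟩ : ∃ ν : ℤ × ℤ → ℤ × ℤ, ν = fun x =>
      if (0 < x.2 ∨ x.2 = 0 ∧ 0 < x.1) then x else (-x.1, -x.2) := ⟨_, rfl⟩
  have hνform : ∀ x a, (form a (ν x)).natAbs = (form a x).natAbs := by
    intro x a
    rw [hν]
    simp only
    split_ifs
    · rfl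
    · have : form a (-x.1, -x.2) = - form a x := by simp only [form]; ring
      rw [this, Int.natAbs_neg]
  have hνN : ∀ x : ℤ × ℤ, IsCoprime x.1 x.2 → Nrm (ν x) := by
    intro x hx
    rw [hν]
    simp only
    split_ifs with h
    · exact ⟨hx, h⟩
    · refine ⟨hx.neg_neg, ?_⟩
      push Not at h
      obtain ⟨h1, h2⟩ := h
      simp only
      rcases lt_or_eq_of_le h1 with h3 | h3
      · left; linarith
      · right
        refine ⟨by rw [h3]; rfl, ?_⟩
        have h4 := h2 h3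
        rcases lt_or_eq_of_le h4 with h5 | h5
        · linarith
        · exfalso
          rw [h3, h5] at hx
          exact not_isCoprime_zero_zero hx
  have hνinj : Set.InjOn (fun p => ν (φ p)) (G' : Set (ℕ × ℕ)) := by
    intro p hp p' hp' he
    rw [Finset.mem_coe, hG'] at hp hp'
    obtain ⟨-, -, a4, -, -⟩ := hmemG p (Finset.mem_filter.1 hp).1
    obtain ⟨-, -, b4, -, -⟩ := hmemG p' (Finset.mem_filter.1 hp').1
    simp only at he
    have hcase : ∀ x, ν x = x ∨ ν x = (-x.1, -x.2) := by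
      intro x
      rw [hν]
      simp only
      split_ifs
      · exact Or.inl rfl
      · exact Or.inr rfl
    have h1 : φ p = φ p' ∨ φ p = (-(φ p').1, -(φ p').2) := by
      rcases hcase (φ p) with h | h <;> rcases hcase (φ p') with h' | h'
      · left; rw [← h, ← h', he]
      · right; rw [← h, ← h', he]
      · right
        rw [h, h'] at he
        have e1 := congrArg Prod.fst he
        have e2 := congrArg Prod.snd he
        simp only at e1 e2
        exact Prod.ext (by simp only; linarith) (by simp only; linarith)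
      · left
        rw [h, h'] at he
        have e1 := congrArg Prod.fst he
        have e2 := congrArg Prod.snd he
        simp only at e1 e2
        exact Prod.ext (by linarith) (by linarith)
    rcases h1 with h1 | h1
    · exact hφinj h1
    · exfalso
      have e3 := hφ2 p
      rw [h1] at e3
      have e4 : form (α i0) (-(φ p').1, -(φ p').2) = - form (α i0) (φ p') := by
        simp only [form]; ring
      rw [e4, hφ2 p'] at e3
      have : (0 : ℤ) < p'.2 := by exact_mod_cast b4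
      have : (0 : ℤ) < p.2 := by exact_mod_cast a4
      linarith
  have hsub : ((G'.image fun p => ν (φ p)) : Set (ℤ × ℤ)) ⊆ Pts α S X A := by
    intro x hx
    rw [Finset.mem_coe, Finset.mem_image] at hx
    obtain ⟨p, hp, rfl⟩ := hx
    rw [hG'] at hp
    obtain ⟨a1, a2⟩ := Finset.mem_filter.1 hp
    obtain ⟨b1, b2, b3, b4, b5⟩ := hmemG p a1
    have hne : ∀ i, 0 < (form (α i) (ν (φ p))).natAbs := fun i => by
      rw [hνform]; exact Int.natAbs_pos.2 (a2 i)
    have hi0v : (form (α i0) (ν (φ p))).natAbs = p.2 := by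
      rw [hνform, hφ2, Int.natAbs_natCast]
    have hle : ∀ i, ((form (α i) (ν (φ p))).natAbs : ℝ) ≤ Y := by
      intro i
      rw [hνform, ← hTY]
      have h1 : (((form (α i) (φ p)).natAbs : ℕ) : ℝ) ≤ ((c1 * max p.1 p.2 : ℕ) : ℝ) := by
        exact_mod_cast hform p i
      refine h1.trans ?_
      push_cast
      refine mul_le_mul_of_nonneg_left ?_ hc1R0.le
      refine max_le ?_ ?_
      · have : (p.1 : ℝ) ≤ M := by exact_mod_cast b2
        linarith
      · have : (p.2 : ℝ) ≤ N := by exact_mod_cast b4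
        exact this.trans (hNmin.trans (min_le_right _ _))
    have hp2A : (p.2 : ℝ) ≤ A := by
      have : (p.2 : ℝ) ≤ N := by exact_mod_cast b4
      exact this.trans (hNmin.trans (min_le_left _ _))
    refine ⟨hνN _ (hφcop p b5), fun i => Int.natAbs_pos.1 (hne i), ?_, i0, ?_⟩
    · unfold N1
      have h1 : 0 < (∏ i, form (α i) (ν (φ p))).natAbs :=
        Int.natAbs_pos.2 (Finset.prod_ne_zero_iff.2 fun i _ => Int.natAbs_pos.1 (hne i))
      refine (lr_le_log h1 S).trans ?_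
      have h2 : (∏ i, form (α i) (ν (φ p))).natAbs = ∏ i, (form (α i) (ν (φ p))).natAbs := by
        rw [← Int.natAbsHom_apply, map_prod]
        rfl
      rw [h2]
      push_cast
      rw [Real.log_prod fun i _ => by exact_mod_cast (hne i).ne',
        ← Finset.add_sum_erase _ _ (Finset.mem_univ i0)]
      have h3 : ∑ i ∈ Finset.univ.erase i0, Real.log ((form (α i) (ν (φ p))).natAbs : ℝ) ≤
          ∑ _i ∈ (Finset.univ : Finset (Fin q)).erase i0, Real.log Y :=
        Finset.sum_le_sum fun i _ => Real.log_le_log (by exact_mod_cast hne i) (hle i)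
      rw [Finset.sum_const, Finset.card_erase_of_mem (Finset.mem_univ _), Finset.card_univ,
        Fintype.card_fin, nsmul_eq_mul, Nat.cast_sub (by omega), Nat.cast_one,
        ← Real.log_rpow hY0, hYq, Real.log_div hX0.ne' hA0.ne'] at h3
      have h4 : Real.log ((form (α i0) (ν (φ p))).natAbs : ℝ) ≤ Real.log A := by
        rw [hi0v]
        exact Real.log_le_log (by exact_mod_cast b3) hp2A
      linarith
    · unfold N1s
      refine (lr_le_log (hne i0) S).trans ?_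
      rw [hi0v]
      exact Real.log_le_log (by exact_mod_cast b3) hp2A
  have hfinal : (G'.card : ℝ) ≤ ((Pts α S X A).ncard : ℝ) := by
    have h1 : (G'.image fun p => ν (φ p)).card ≤ (Pts α S X A).ncard := by
      rw [← Set.ncard_coe_finset]
      exact Set.ncard_le_ncard hsub hfinS
    rw [Finset.card_image_of_injOn hνinj] at h1
    exact_mod_cast h1
  refine le_trans ?_ hfinal
  have hval : (X * A ^ ((q : ℝ) - 2)) ^ (1 / ((q : ℝ) - 1)) = A * Y := by
    rw [Real.rpow_def_of_pos (by positivity), Real.log_mul hX0.ne' (by positivity),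
      Real.log_rpow hA0]
    have hYl : Real.log Y = 1 / ((q : ℝ) - 1) * (Real.log X - Real.log A) := by
      rw [hY, Real.log_rpow hXA, Real.log_div hX0.ne' hA0.ne']
    rw [← Real.exp_log (show 0 < A * Y by positivity), Real.log_mul hA0.ne' hY0.ne', hYl]
    congr 1
    field_simp
    ring
  rw [hval]
  have e1 : A / (2 * c1) * (T / 2) ≤ (N : ℝ) * M := mul_le_mul hNA hM2 (by positivity) (by positivity)
  have e2 : A / (2 * c1) * (T / 2) = 4 * (4 * (1 / (64 * (c1 : ℝ) ^ 2) * (A * Y))) := by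
    rw [← hTY]
    field_simp
    ring
  rw [e2] at e1
  -- `q ≤ M N / 8`
  have e3 : (q : ℝ) ≤ (N : ℝ) * M / 16 := by
    have h1 : (1 : ℝ) / 2 * (T / 2) ≤ (N : ℝ) * M := mul_le_mul hN1 hM2 (by positivity) (by positivity)
    linarith
  have e4 : (M : ℝ) * N = N * M := mul_comm _ _
  rw [e4] at hcard2
  linarith

/-- **Rational points of the projective line of all heights: truncated counting functions relative
to the divisor and to one of its points.** -/
theorem result (q : ℕ) (hq : 3 ≤ q) (α : Fin q → ℤ × ℤ) (hcop : ∀ i, IsCoprime (α i).1 (α i).2)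
    (hα : ∀ i j, i ≠ j → (α i).1 * (α j).2 ≠ (α j).1 * (α i).2) (S : Finset ℕ) :
    (∀ ε : ℝ, 0 < ε → ∃ C : ℝ, 0 < C ∧ ∀ X A : ℝ, 1 ≤ X → 1 ≤ A → (Pts α S X A).Finite ∧
      ((Pts α S X A).ncard : ℝ) ≤
        C * X ^ ε * (X * A ^ ((q : ℝ) - 2)) ^ (1 / ((q : ℝ) - 1))) ∧
    (∃ c : ℝ, 0 < c ∧ ∃ X₀ : ℝ, ∀ X A : ℝ, X₀ ≤ X → 1 ≤ A → A ^ q ≤ X →
      c * (X * A ^ ((q : ℝ) - 2)) ^ (1 / ((q : ℝ) - 1)) ≤ ((Pts α S X A).ncard : ℝ)) :=
  ⟨fun ε hε => upper q hq α hα S ε hε, lower q hq α hcop hα S⟩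

end Pool.Agent.Results.MP_9ec3f0_nt.ComponentAllHeights
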