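import Pool.Agent.TH910.Voj.Trunc

/-!
# The truncated counting function of an arbitrary divisor of projective space

Let `D` be any reduced divisor of `ℙⁿ` over `ℚ` (singular components and arbitrary intersections are
allowed), with components `F_j = 0` irreducible over `ℚ` of degree `k_j`. Outside a set of rational
points whose number is smaller by a power than the number of all points, the truncated counting
function of `D` is at least `θ h`, for each `θ < ∑ m_j`, where `m_j = k_j` for hyperplanes and
quadrics, and `m_j = 1` for each other component (or more, if `F_j` takes few values twice).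

As `h_{K + D} = (∑ k_j - n - 1) h`, Vojta's inequality `N¹_S(D, P) ≥ h_{K + D}(P) - ε h(P) - C`
holds for almost all rational points (with `ε = C = 0`) whenever the sum of `k_j - 1` over the
components of degree at least three is at most `n`; if it is `n + 1`, it holds for each `ε > 0`.
-/

set_option autoImplicit false

namespace Pool.Agent.Results.MP_9ec3f0_nt.ConicAndHigherDegree

open MvPolynomial

/-- A form `F` in `n` variables has few coincidences with exponent `m` if, for each `δ > 0`, it takes
the same value at no more than `C B ^ (2 n - m + δ)` pairs of integer vectors with entries at most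
`B` in absolute value. -/
def FewCoincidences {n : ℕ} (F : MvPolynomial (Fin n) ℤ) (m : ℕ) : Prop :=
  ∀ δ : ℝ, 0 < δ → ∃ C : ℝ, ∀ B : ℕ, 1 ≤ B →
    (Set.ncard {z : (Fin n → ℤ) × (Fin n → ℤ) | (∀ i, |z.1 i| ≤ B) ∧ (∀ i, |z.2 i| ≤ B) ∧
      eval z.1 F = eval z.2 F} : ℝ) ≤ C * (B : ℝ) ^ (2 * (n : ℝ) - m + δ)

/-- The truncated counting function `N¹_S(D, P)` of the divisor `D : ∏ F_j = 0` of `ℙⁿ` over `ℚ` at the
point `P` with homogeneous coordinates `x` (coprime integers): the sum of `log p` over the primes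
`p` outside `S` which divide `∏ F_j(x)`. -/
noncomputable def truncatedCount {n r : ℕ} (S : Finset ℕ)
    (F : Fin r → MvPolynomial (Fin (n + 1)) ℤ) (x : Fin (n + 1) → ℤ) : ℝ :=
  ∑ p ∈ (∏ j, eval x (F j)).natAbs.primeFactors \ S, Real.log p

/-- **The truncated counting function of a reduced divisor of `ℙⁿ`, for almost all points.** -/
theorem result (n r : ℕ) (S : Finset ℕ) (F : Fin r → MvPolynomial (Fin (n + 1)) ℤ)
    (k m : Fin r → ℕ) (hhom : ∀ j, (F j).IsHomogeneous (k j))
    (hirr : ∀ j, Irreducible (map (Int.castRingHom ℚ) (F j)))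
    (hdist : ∀ i j, i ≠ j →
      ¬ Associated (map (Int.castRingHom ℚ) (F i)) (map (Int.castRingHom ℚ) (F j)))
    (hm : ∀ j, m j ≤ 1 ∨ (m j ≤ k j ∧ k j ≤ 2) ∨ FewCoincidences (F j) (m j))
    (θ : ℝ) (hθ : θ < ∑ j, (m j : ℝ)) :
    ∃ c : ℝ, 0 < c ∧ ∃ C : ℝ, ∀ B : ℕ, 1 ≤ B →
      (Set.ncard {x : Fin (n + 1) → ℤ | (∀ i, |x i| ≤ B) ∧
        ((∃ j, eval x (F j) = 0) ∨ truncatedCount S F x < θ * Real.log B)} : ℝ) ≤
          C * (B : ℝ) ^ ((n : ℝ) + 1 - c) := by
  obtain ⟨c, hc, C, -, h⟩ := TH910.Voj.main_trunc S F k m hhom hirr hdist hm θ hθ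
  refine ⟨c, hc, C, fun B hB => ?_⟩
  have h1 := h B hB
  push_cast at h1
  refine le_trans (le_of_eq ?_) h1
  congr 2
  ext x
  simp only [Set.mem_ofPred_eq, TH910.Voj.mem_box, truncatedCount, TH910.Voj.logRad]

end Pool.Agent.Results.MP_9ec3f0_nt.ConicAndHigherDegree
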