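import Pool.Agent.TH876.KR.Main
import Pool.Agent.TH876.KR.Fin

/-!
# Vojta's conjecture with truncated counting function: the number of points on the line with a small
truncated counting function, with the sharp exponent

`K` is a number field, `S` a finite set of primes, `D = a 0 + ... + a (q - 1)` a sum of `q ≥ 3`
different `K`-rational points of the projective line, so that `K_X + D` has degree `q - 2`.
-/

set_option autoImplicit false

namespace Pool.Agent.Results.MP_9ec3f0_nt.SharpPointCount

open NumberField IsDedekindDomain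

variable {K : Type} [Field K] [NumberField K]

/-- the linear form vanishing at the point `(a 0 : a 1)` -/
def form (a x : Fin 2 → K) : K := a 0 * x 1 - a 1 * x 0

/-- the local height of `(x 0 : x 1)` relative to the point `(a 0 : a 1)`, at the prime `v` -/
noncomputable def localHeight (v : HeightOneSpectrum (𝓞 K)) (a x : Fin 2 → K) : ℝ :=
  Real.log (max (FinitePlace.mk v (a 0)) (FinitePlace.mk v (a 1)) *
    max (FinitePlace.mk v (x 0)) (FinitePlace.mk v (x 1)) / FinitePlace.mk v (form a x))

/-- the truncated counting function relative to `D = a 0 + ... + a (q - 1)`: the sum of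
`log N(v)` over the primes `v` outside `S` where the local height of `D` is positive -/
noncomputable def counting (S : Set (HeightOneSpectrum (𝓞 K))) {q : ℕ} (a : Fin q → Fin 2 → K)
    (x : Fin 2 → K) : ℝ :=
  ∑ᶠ v ∈ {v : HeightOneSpectrum (𝓞 K) | v ∉ S ∧ 0 < ∑ i, localHeight v (a i) x},
    Real.log (Ideal.absNorm v.asIdeal : ℝ)

/-- the `K`-rational points `P` off `D` of height at most `H` with `exp N^(1)_S(D, P) ≤ X` -/
def Points (S : Set (HeightOneSpectrum (𝓞 K))) {q : ℕ} (a : Fin q → Fin 2 → K) (X H : ℝ) :
    Set (Projectivization K (Fin 2 → K)) :=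
  {P | ∃ (x : Fin 2 → K) (hx : x ≠ 0), P = Projectivization.mk K x hx ∧
    (∀ i, form (a i) x ≠ 0) ∧ Real.exp (counting S a x) ≤ X ∧ Height.logHeight x ≤ H}

/-- Let `D` be the sum of `q ≥ 3` different `K`-rational points of the projective line, `S` a
finite set of primes of `K` and `ε > 0`. For all `X, H ≥ 1` at most `C H X ^ (2 / q + ε)` points
`P` of the line over `K`, off `D`, of height at most `H`, satisfy `exp N^(1)_S(D, P) ≤ X`. -/
theorem result (K : Type) [Field K] [NumberField K] (S : Set (HeightOneSpectrum (𝓞 K)))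
    (hS : S.Finite) (q : ℕ) (hq : 3 ≤ q) (a : Fin q → Fin 2 → K)
    (ha : ∀ i j, i ≠ j → form (a i) (a j) ≠ 0) (ε : ℝ) (hε : 0 < ε) :
    ∃ C : ℝ, ∀ X H : ℝ, 1 ≤ X → 1 ≤ H → (Points S a X H).Finite ∧
      ((Points S a X H).ncard : ℝ) ≤ C * H * X ^ (2 / (q : ℝ) + ε) :=
  Pool.Agent.TH876.KR.final K (fun ε hε => Pool.Agent.TH876.KR.main_count K ε hε) S hS q hq a ha
    ε hε

end Pool.Agent.Results.MP_9ec3f0_nt.SharpPointCount
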