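import Mathlib
import Pool.Agent.TH551.HA.Jr4

/-!
# MP_9ec3f0_nt: the truncated inequality of Vojta on smooth complete intersections, for all simple
# normal crossings divisors cut out by forms and all points with sparse coordinates and sparse
# factorisation

Let `X` be the complete intersection `f 1 = … = f r = 0` of dimension `m` in the projective space of
dimension `n = m + r` over `ℚ` (for `r = 0` the projective space itself), `f j` forms of degree
`ee j ≥ 1` which generate a prime ideal, and `D` the divisor on `X` with the components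
`D_i = {F i = 0}`, `F i` forms of degree `dd i`, such that `X` is smooth and `D` has simple normal
crossings: at each point of `X` with complex coordinates the gradients of all the `f j` and of those
`F i` which vanish there are linearly independent. That the dimension of `X` is `m` is expressed by
`hS0`: the `m + 1` coordinates with the numbers `S0 i` satisfy no relation on `X`.

Let a finitely generated group `Γ` of rational numbers (for instance all `S`-units), the number `k`
and the shape `τ`, `e` of the factorisations be given. For every `ε > 0` there is a form `G` which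
does not vanish on `X` and a constant `C` such that all points of `X` off `G = 0` with coprime
integral coordinates `x_c` and

  `F i (x) = w i * ∏_{τ j = i} y j ^ (e j)`, not zero, `w i` integers in `Γ`,

the integers `x_c` and `y j` being sums of `k` products of elements of `Γ` and integers of absolute
value at most `M`, satisfy

  `(∑ dd i + ∑ ee j - (n + 1) - ε) h(x) ≤ ∑ log |y j| + C (1 + log M)`.

This is the inequality of the conjecture (the canonical divisor of `X` has degree
`∑ ee j - (n + 1)`), `N^(1)_D` being replaced by the logarithm of the radical read off from the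
given factorisation.

The proof: the derivations of the field of germs, applied to the coordinates with control at all
places of `S` (by the `S`-adic subspace theorem with moving coefficients), are tangent to `X` and
give a section of the anticanonical sheaf at the point; by the Nullstellensatz it is divisible by
the product of the `y j ^ (e j - 1)` outside `S`, and dominated by the product of the `F i` at all
places of `S`.
-/

set_option autoImplicit false

namespace Pool.Agent.Results.MP_9ec3f0_nt.SparseCompleteIntersections

open MvPolynomial Pool.Agent.TH551.HA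

theorem result (m r N p k : ℕ)
    (f : Fin r → MvPolynomial (Fin (m + 1 + r)) ℚ) (ee : Fin r → ℕ)
    (hf : ∀ j, (f j).IsHomogeneous (ee j)) (hee : ∀ j, 1 ≤ ee j)
    (hJ : (Ideal.span (Set.range f)).IsPrime) (S0 : Fin (m + 1) → Fin (m + 1 + r))
    (hS0 : ∀ G : MvPolynomial (Fin (m + 1)) ℚ, rename S0 G ∈ Ideal.span (Set.range f) → G = 0)
    (F : Fin N → MvPolynomial (Fin (m + 1 + r)) ℚ) (dd : Fin N → ℕ)
    (hF : ∀ i, (F i).IsHomogeneous (dd i))
    (hNC : ∀ z : Fin (m + 1 + r) → ℂ, z ≠ 0 → (∀ j, aeval z (f j) = 0) → LinearIndependent ℂ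
      (Sum.elim (fun (j : Fin r) (c : Fin (m + 1 + r)) => aeval z (pderiv c (f j)))
        (fun (i : {i : Fin N // aeval z (F i) = 0}) (c : Fin (m + 1 + r)) =>
          aeval z (pderiv c (F i.1)))))
    (τ : Fin p → Fin N) (e : Fin p → ℕ) (he : ∀ i, 1 ≤ e i) (Γ : Subgroup ℚˣ) (hΓ : Γ.FG)
    (ε : ℝ) (hε : 0 < ε) :
    ∃ (G : MvPolynomial (Fin (m + 1 + r)) ℚ) (C : ℝ), (∃ d, G.IsHomogeneous d) ∧
      G ∉ Ideal.span (Set.range f) ∧
      ∀ M : ℝ, 1 ≤ M → ∀ (x : Fin (m + 1 + r) → ℤ) (y : Fin p → ℤ) (w : Fin N → ℤ),
        (∀ j, aeval (fun c => (x c : ℚ)) (f j) = 0) →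
        (∀ c, P1.IsSparse Γ k M (x c)) → (∀ i, P1.IsSparse Γ k M (y i)) →
        (∀ σ, ∃ g ∈ Γ, (w σ : ℚ) = (g : ℚ)) →
        (∀ σ, aeval (fun c => (x c : ℚ)) (F σ) =
          ((w σ * ∏ i with τ i = σ, y i ^ (e i) : ℤ) : ℚ)) →
        (∀ σ, aeval (fun c => (x c : ℚ)) (F σ) ≠ 0) → Finset.univ.gcd x = 1 →
        aeval (fun c => (x c : ℚ)) G ≠ 0 →
        ∀ H : ℝ, (∀ c, |(x c : ℝ)| ≤ H) → (∃ c, |(x c : ℝ)| = H) →
        ((∑ i, dd i + ∑ j, ee j : ℕ) - (m + 1 + r) - ε) * Real.log H ≤
          ∑ i, Real.log |(y i : ℝ)| + C * (1 + Real.log M) :=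
  Ci.ciMain ncF csF hbF fwF m r N p k f ee hf hee hJ S0 hS0 F dd hF hNC τ e he Γ hΓ ε hε

end Pool.Agent.Results.MP_9ec3f0_nt.SparseCompleteIntersections
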